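import Pool.Agent.W973.SRR.Defs

/-! Preference at `aV`. -/

set_option autoImplicit false

namespace Pool.Agent.W270.SRR

open Pool.Agent.W973.SRR Pool.Agent.NPC

theorem nr_nr (i : ℕ) : nr (nr i) = pr i := by
  unfold nr pr
  omega

theorem nr_div (i : ℕ) : nr i / 3 = i / 3 := by
  unfold nr
  omega

theorem aP_inj {i j : ℕ} (h : aP i = aP j) : i = j := by
  unfold aP at h
  omega

set_option linter.unusedVariables false in
theorem fw1 (h1 : S_BAS) (h2 : S_OCC) (h3 : S_EV) (h4 : S_INV) (h5 : S_ALT) (h6 : S_TOT) :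
    S_FW1 := by
  intro ψ P hd hP h0 hj i hi
  obtain ⟨hNO, -, hb⟩ := h1 ψ
  obtain ⟨hn, hp, hvn, hvp, hvnp⟩ := hb hd i hi
  obtain ⟨e1, e2, e3⟩ := h3 ψ hd
  have hc : i / 3 < ψ.length := by omega
  have ha : aV (i / 3) < 8 * ψ.length := by
    unfold aV
    omega
  have hdj : nr i / 3 = i / 3 := nr_div i
  have g1 : mt ψ (some (vv ψ (nr i))) (aV (i / 3)) = aP (nr i) := by
    have := (e1 (nr i) hn).1
    rwa [hdj] at this
  have g2 : mt ψ (some (vv ψ i)) (aV (i / 3)) = aP i := (e1 i hi).1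
  have g3 : mt ψ none (aV (i / 3)) = aW (i / 3) := (e2 (i / 3) hc none (by simp)).1
  have g4 : mt ψ none (aP (nr i)) = aQ (nr i) := by
    rw [(e3 (nr i) hn none).1]
    simp
  have g5 : mt ψ (some (vv ψ i)) (aP (nr i)) = aQ (nr i) := by
    rw [(e3 (nr i) hn (some (vv ψ i))).1, if_neg, if_neg]
    · rw [nr_nr]
      intro h
      exact hvp (Option.some.inj h).symm
    · intro h
      exact hvn (Option.some.inj h).symm
  have ne1 : mt ψ (some (vv ψ i)) (aV (i / 3)) ≠ mt ψ (some (vv ψ (nr i))) (aV (i / 3)) := by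
    rw [g1, g2]
    intro h
    exact hvn (congrArg (vv ψ) (aP_inj h)).symm
  have ne2 : mt ψ none (aV (i / 3)) ≠ mt ψ (some (vv ψ (nr i))) (aV (i / 3)) := by
    rw [g1, g3]
    unfold aW aP
    omega
  have k1 := h5 _ P _ _ hP (h4 ψ hd (some (vv ψ i))) (h4 ψ hd (some (vv ψ (nr i))))
    (hj i hi) (hj (nr i) hn) _ ha ne1
  have k2 := h5 _ P _ _ hP (h4 ψ hd none) (h4 ψ hd (some (vv ψ (nr i))))
    h0 (hj (nr i) hn) _ ha ne2
  rw [g1, g2, g5] at k1
  rw [g1, g3, g4] at k2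
  exact k1.trans k2.symm


end Pool.Agent.W270.SRR
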